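import Pool.Agent.V11113.TH.Main

namespace Pool.Agent.Results.MP_8c5903_an.NoEta

open MeasureTheory Set
open Pool.Agent.V11113.TH
open scoped ENNReal

/-- MP_8c5903_an, Q1 is answered negatively.  Here `IsTensorShift 𝕜 T` says that the bounded
operator `T` on `L²(ℝ²)` acts on the product Haar basis as `T_{[2]} = T ⊗ T`.  Such an operator
exists, and for every such operator and every `η < 1` there is a measurable set `U` of finite
positive measure with `∫_U |T_{[2]} 1_U|² > η |U|`. -/
theorem result (𝕜 : Type*) [RCLike 𝕜] :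
    (∃ T : Op 𝕜, IsTensorShift 𝕜 T) ∧
    ∀ T : Op 𝕜, IsTensorShift 𝕜 T → ∀ η : ℝ, η < 1 →
      ∃ (U : Set (ℝ × ℝ)) (hU : MeasurableSet U) (hfin : volume U ≠ ∞), 0 < volume U ∧
        η * (volume U).toReal < energy T U hU hfin := by
  refine ⟨exists_tensorShift 𝕜, fun T hT η hη => ?_⟩
  obtain ⟨n, hn⟩ := main hT hη
  refine ⟨U n, measurableSet_U n, volume_U_ne_top n, ?_, hn⟩
  rw [volume_U]
  exact ENNReal.ofReal_pos.mpr (by positivity)

end Pool.Agent.Results.MP_8c5903_an.NoEta
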